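import Pool.Agent.Work.MP_959bfa_wn.Interface

/-!
MP_959bfa_co, frozen statement S10239: weak nets of LINEAR size for axis-parallel rectangles.
Statements of the new blocks.  Paper proof: BLUEPRINT3.md in this folder.
From `Work/MP_959bfa_wn*` we use SORT, SWP, CNT, TAIL, CHO, CORN, IND, GRID, MWU, PARC.
-/

namespace Wn

open Finset

/-- number of points of the box outside `B` minus number of points of the box in `B` -/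
noncomputable def dev {n : ℕ} (P : Fin n → ℝ × ℝ) (B : Finset (Fin n)) (R : Bx) : ℝ :=
  ((inds P R).card : ℝ) - 2 * ((inds P R ∩ B).card : ℝ)

/-- weak crossing order: `R` is thin and tall, `S` is wide and flat -/
def Wk (R S : Bx) : Prop := S.l ≤ R.l ∧ R.r ≤ S.r ∧ R.b ≤ S.b ∧ S.t ≤ R.t

/-- `(x, y)` lies in `R`, and `x` and `y` both lie outside the intervals of `S` -/
def Cnr (R S : Bx) (x y : ℝ) : Prop :=
  In R x y ∧ (x < S.l ∨ S.r < x) ∧ (y < S.b ∨ S.t < y)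

/-- `R` and `S` are disjoint or some point of `P` is lost in the uncrossing of `R` and `S` -/
def Unc {n : ℕ} (P : Fin n → ℝ × ℝ) (R S : Bx) : Prop :=
  Dj R S ∨ ∃ p : Fin n, Cnr R S (P p).1 (P p).2 ∨ Cnr S R (P p).1 (P p).2

/-- gain of a box -/
noncomputable def gn {n : ℕ} (P : Fin n → ℝ × ℝ) (a : Fin n → ℝ) (c : ℝ) (R : Bx) : ℝ :=
  (∑ p ∈ inds P R, a p) - c

/-- a good half: few pairwise disjoint boxes are deficient, simultaneously at all scales -/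
def Good {n : ℕ} (P : Fin n → ℝ × ℝ) (B : Finset (Fin n)) : Prop :=
  ∀ (M : ℕ) (Q : Fin M → Bx) (s ρ : ℝ), (∀ a b, a ≠ b → Dj (Q a) (Q b)) → 0 < ρ → ρ ≤ 1 →
    1 ≤ s → (∀ a, s ≤ ((inds P (Q a)).card : ℝ) ∧
      ρ * ((inds P (Q a)).card : ℝ) ≤ dev P B (Q a)) →
    (M : ℝ) ≤ 16 * n * Real.exp (-(ρ ^ 2 * s / 8))

/-- HALF: existence of a good half. -/
def stmt_HALF : Prop :=
  ∀ (n : ℕ) (P : Fin n → ℝ × ℝ), Srt P → ∃ B : Finset (Fin n), 2 * B.card ≤ n ∧ Good P B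

/-- UNC: the uncrossed maximiser (real weights, total weight at most 1 at every point). -/
def stmt_UNC : Prop :=
  ∀ (n t w : ℕ) (P : Fin n → ℝ × ℝ) (a : Fin n → ℝ) (c : ℝ) (R : Fin t → Bx),
    (∀ i, Ne (R i)) → 1 ≤ w → DepthLe R univ w →
    ∃ (ι : Type) (_ : Fintype ι) (S : ι → Bx) (y : ι → ℝ),
      (∀ i, Ne (S i)) ∧ Function.Injective S ∧ (∀ i, 0 < y i) ∧
      (∀ u v : ℝ, ∑ i ∈ fl univ (fun i => In (S i) u v), y i ≤ 1) ∧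
      (∀ i, 0 ≤ gn P a c (S i)) ∧
      ∑ i, gn P a c (R i) ≤ w * ∑ i, y i * gn P a c (S i) ∧
      (∀ i j, ¬ Wk (S i) (S j) → ¬ Wk (S j) (S i) → Unc P (S i) (S j))

/-- LEV: a weighted antichain (weighted Mirsky theorem). -/
def stmt_LEV : Prop :=
  ∀ (ι : Type) (_ : Fintype ι) (lt : ι → ι → Prop) (y h : ι → ℝ) (W : ℝ),
    (∀ i, ¬ lt i i) → (∀ i j k, lt i j → lt j k → lt i k) → (∀ i, 0 ≤ y i) → (∀ i, 0 ≤ h i) →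
    (∀ C : Finset ι, (∀ i ∈ C, ∀ j ∈ C, i ≠ j → lt i j ∨ lt j i) → ∑ i ∈ C, y i ≤ W) →
    ∃ A : Finset ι, (∀ i ∈ A, ∀ j ∈ A, ¬ lt i j) ∧ ∑ i, y i * h i ≤ W * ∑ i ∈ A, h i

/-- DEP: depth of uncrossed families. -/
def stmt_DEP : Prop :=
  ∀ (n : ℕ) (P : Fin n → ℝ × ℝ) (ι : Type) (S : ι → Bx) (A : Finset ι) (N : ℕ),
    (∀ i ∈ A, (inds P (S i)).card ≤ N) →
    (∀ i ∈ A, ∀ j ∈ A, i ≠ j → Unc P (S i) (S j)) → DepthLe S A ((N + 1) ^ 4)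

/-- CLS: size of an uncrossed antichain in one size class. -/
def stmt_CLS : Prop :=
  ∀ (n : ℕ) (P : Fin n → ℝ × ℝ) (B : Finset (Fin n)) (ι : Type) (S : ι → Bx) (A : Finset ι)
    (j : ℕ) (ρ : ℝ), Good P B → 0 < ρ → ρ ≤ 1 → (∀ i ∈ A, Ne (S i)) →
    (∀ i ∈ A, 2 ^ j ≤ (inds P (S i)).card ∧ (inds P (S i)).card < 2 ^ (j + 1) ∧
      ρ * ((inds P (S i)).card : ℝ) ≤ dev P B (S i)) →
    (∀ i ∈ A, ∀ k ∈ A, i ≠ k → ¬ Wk (S i) (S k) ∧ Unc P (S i) (S k)) →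
    (A.card : ℝ) ≤ 102400 * 2 ^ (4 * j) * n * Real.exp (-(ρ ^ 2 * 2 ^ j / 8))

/-- SUMJ: the sum over the size classes. -/
def stmt_SUMJ : Prop :=
  ∀ (ε : ℝ) (J : ℕ), 0 < ε → ε ≤ 1 →
    ∑ j ∈ range J, (2 : ℝ) ^ (5 * j) * Real.exp (-(ε ^ 2 * 2 ^ j / 64)) ≤
      1440 * 64 ^ 6 * (1 / ε) ^ 12

/-- FRA: families of deficient boxes of bounded depth are small (fractional packing number). -/
def stmt_FRA : Prop :=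
  ∃ C : ℝ, 1 ≤ C ∧ ∀ (n t w κ : ℕ) (P : Fin n → ℝ × ℝ) (B : Finset (Fin n)) (ε : ℝ)
    (R : Fin t → Bx), Good P B → 1 ≤ w → 1 ≤ κ → 0 < ε → ε ≤ 1 → (∀ i, Ne (R i)) →
    DepthLe R univ w →
    (∀ i, κ ≤ (inds P (R i)).card ∧ ε * ((inds P (R i)).card : ℝ) ≤ dev P B (R i)) →
    (t : ℝ) ≤ C * n * (1 / ε) ^ 13 * Real.exp (-(ε ^ 2 * κ / 256)) / κ * w

/-- GAP3: piercing number against fractional packing number. -/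
def stmt_GAP3 : Prop :=
  ∀ F μ : ℝ, 1 ≤ F → Nets F μ → ∀ (n κ : ℕ) (P : Fin n → ℝ × ℝ), 1 ≤ κ →
    (n : ℝ) ≤ μ * κ → ∀ p : Finset (Fin n) → Prop, (∀ I, p I → κ ≤ I.card) →
    ∀ δ : ℝ, 0 ≤ δ →
    (∀ (w t : ℕ) (R : Fin t → Bx), 1 ≤ w → (∀ i, Ne (R i) ∧ p (inds P (R i))) →
      DepthLe R univ w → (t : ℝ) ≤ δ * w) →
    ∃ Z : Finset (ℝ × ℝ), (Z.card : ℝ) ≤ 7 * F * δ ∧
      ∀ R : Bx, p (inds P R) → ∃ z ∈ Z, In R z.1 z.2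

/-- PAR3: parameters. -/
def stmt_PAR3 : Prop :=
  ∀ C : ℝ, 1 ≤ C → ∃ K : ℝ, 1 ≤ K ∧ ∀ F k0 κ θ : ℝ, 1 ≤ F → K ≤ k0 → k0 ≤ κ →
    K * Real.log F ≤ k0 → θ = Real.sqrt (Real.sqrt (k0 / κ)) →
    7 * F * (C * (1 / (θ / 32)) ^ 13 * Real.exp (-((θ / 32) ^ 2 * κ / 256))) ≤ k0 * θ / 8

/-- ONE3: one step of the bootstrap, without any dependence on `μ`. -/
def stmt_ONE3 : Prop :=
  ∃ K : ℝ, 1 ≤ K ∧ ∀ F μ k0 : ℝ, 1 ≤ F → 1 ≤ μ → K ≤ k0 → K * Real.log F ≤ k0 →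
    Nets F (2 * μ) → Nets (6 * k0) μ

/-- BOOT3: nets of linear size for multisets. -/
def stmt_BOOT3 : Prop := ∃ C : ℝ, 0 < C ∧ ∀ μ : ℝ, 1 ≤ μ → Nets C μ

/-- FIN3: the frozen statement S10239. -/
def stmt_FIN3 : Prop :=
  ∃ C : ℝ, ∀ k : ℕ, 1 ≤ k → ∀ A : Finset (ℝ × ℝ),
    ∃ A' : Finset (ℝ × ℝ), (A'.card : ℝ) ≤ C * (A.card : ℝ) / (k : ℝ) ∧
      ∀ a b : ℝ × ℝ, k ≤ ((A : Set (ℝ × ℝ)) ∩ Set.Icc a b).ncard →
        ∃ q ∈ A', q ∈ Set.Icc a b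

end Wn
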